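import Pool.Agent.Helper653.IceTwo

namespace Pool.Agent.Results.MP_7c8df0_mp.Limit
open Finset Pool.Agent.Helper653.IceUp Pool.Agent.Helper653.IceTwo

section tr
variable {A : Type} [Fintype A] [DecidableEq A]

lemma trace_pow (T : Matrix A A ℝ) (hT : T.IsHermitian) (k : ℕ) :
    (T^k).trace = ∑ i, hT.eigenvalues i ^ k := by
  have h := hT.spectral_theorem
  set D : Matrix A A ℝ := Matrix.diagonal (RCLike.ofReal ∘ hT.eigenvalues) with hD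
  have h2 : T^k = Unitary.conjStarAlgAut ℝ _ hT.eigenvectorUnitary (D^k) := by
    rw [map_pow, ← h]
  rw [h2, Unitary.conjStarAlgAut_apply, Matrix.trace_mul_comm, ← mul_assoc, Unitary.coe_star_mul_self,
    one_mul, hD, Matrix.diagonal_pow, Matrix.trace_diagonal]
  rfl

lemma pm {ι : Type} [Fintype ι] (x : ι → ℝ) (hx : ∀ i, 0 ≤ x i) (m n : ℕ) (hm : 0 < m) (hmn : m ≤ n) :
    (∑ i, x i ^ n)^m ≤ (∑ i, x i ^ m)^n := by
  set s := ∑ i, x i ^ m with hs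
  have hs0 : 0 ≤ s := Finset.sum_nonneg (fun i _ => pow_nonneg (hx i) _)
  set M := s ^ ((m:ℝ)⁻¹) with hM
  have hM0 : 0 ≤ M := Real.rpow_nonneg hs0 _
  have hMm : M ^ m = s := Real.rpow_inv_natCast_pow hs0 (by omega)
  have hxM : ∀ i, x i ≤ M := by
    intro i
    refine (pow_le_pow_iff_left₀ (hx i) hM0 (by omega : m ≠ 0)).mp ?_
    rw [hMm]
    exact Finset.single_le_sum (f := fun i => x i ^ m) (fun i _ => pow_nonneg (hx i) _)
      (Finset.mem_univ i)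
  have h1 : ∑ i, x i ^ n ≤ s * M^(n-m) := by
    rw [hs, Finset.sum_mul]
    refine Finset.sum_le_sum (fun i _ => ?_)
    calc x i ^ n = x i ^ m * x i ^ (n-m) := by rw [← pow_add]; congr 1; omega
      _ ≤ x i ^ m * M^(n-m) :=
        mul_le_mul_of_nonneg_left (pow_le_pow_left₀ (hx i) (hxM i) _) (pow_nonneg (hx i) _)
  calc (∑ i, x i ^ n)^m ≤ (s * M^(n-m))^m :=
        pow_le_pow_left₀ (Finset.sum_nonneg (fun i _ => pow_nonneg (hx i) _)) h1 _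
    _ = s^m * (M^m)^(n-m) := by rw [mul_pow, ← pow_mul, ← pow_mul, mul_comm (n-m) m]
    _ = s^n := by rw [hMm, ← pow_add]; congr 1; omega

lemma cyc_trace (k : ℕ) [NeZero k] (T : Matrix A A ℝ) : cyc k T = (T^k).trace := by
  obtain ⟨j, rfl⟩ : ∃ j, k = j + 1 := ⟨k - 1, by have := NeZero.ne k; omega⟩
  rw [cyc_eq, pow_succ, Matrix.trace]
  rfl

lemma cyc_cmp (m n : ℕ) [NeZero m] [NeZero n] (hm : Even m) (hmn : m ≤ n) (T : Matrix A A ℝ)
    (hs : ∀ p q, T p q = T q p) (h0 : 0 ≤ cyc n T) : cyc n T ^ m ≤ cyc m T ^ n := by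
  have hT : T.IsHermitian := by
    ext i j
    simpa using hs j i
  rw [cyc_trace, trace_pow T hT] at h0 ⊢
  rw [cyc_trace, trace_pow T hT]
  have h1 : ∑ i, hT.eigenvalues i ^ n ≤ ∑ i, |hT.eigenvalues i| ^ n :=
    Finset.sum_le_sum (fun i _ => by rw [← abs_pow]; exact le_abs_self _)
  have h2 : ∑ i, hT.eigenvalues i ^ m = ∑ i, |hT.eigenvalues i| ^ m :=
    Finset.sum_congr rfl (fun i _ => by rw [hm.pow_abs])
  rw [h2]
  exact (pow_le_pow_left₀ h0 h1 m).trans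
    (pm _ (fun i => abs_nonneg _) m n (Nat.pos_of_ne_zero (NeZero.ne m)) hmn)

end tr

section model
variable {S : Type} [Fintype S] [DecidableEq S]

lemma Z_cmp1 (w : S → S → S → S → S → S → ℝ) (r : S ≃ S)
    (hw : ∀ o1 o2 o3 i1 i2 i3, w o1 o2 o3 i1 i2 i3 = w i1 (r o2) (r o3) o1 (r i2) (r i3))
    (h0 : ∀ o1 o2 o3 i1 i2 i3, 0 ≤ w o1 o2 o3 i1 i2 i3)
    (m n b c : ℕ) [NeZero m] [NeZero n] [NeZero b] [NeZero c] (hm : Even m) (hmn : m ≤ n) :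
    Z w n b c ^ m ≤ Z w m b c ^ n := by
  have h := Z_nonneg w h0 n b c
  rw [Z_cyc] at h
  rw [Z_cyc, Z_cyc]
  exact cyc_cmp m n hm hmn _ (LT_symm w r hw b c) h

lemma Z_cmp (w : S → S → S → S → S → S → ℝ) (r : S ≃ S)
    (hw : ∀ o1 o2 o3 i1 i2 i3, w o1 o2 o3 i1 i2 i3 = w i1 (r o2) (r o3) o1 (r i2) (r i3))
    (hw2 : ∀ o1 o2 o3 i1 i2 i3, w o1 o2 o3 i1 i2 i3 = w o2 o3 o1 i2 i3 i1)
    (h0 : ∀ o1 o2 o3 i1 i2 i3, 0 ≤ w o1 o2 o3 i1 i2 i3)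
    (m n : ℕ) [NeZero m] [NeZero n] (hm : Even m) (hmn : m ≤ n) :
    Z w n n n ^ (m^3) ≤ Z w m m m ^ (n^3) := by
  have z1 : Z w n n n ^ m ≤ Z w m n n ^ n := Z_cmp1 w r hw h0 m n n n hm hmn
  have z2 : Z w m n n ^ m ≤ Z w m n m ^ n := by
    rw [Z_rot w hw2 m n n]
    exact Z_cmp1 w r hw h0 m n n m hm hmn
  have z3 : Z w m n m ^ m ≤ Z w m m m ^ n := by
    rw [Z_rot w hw2 m n m]
    exact Z_cmp1 w r hw h0 m n m m hm hmn
  have ha := Z_nonneg w h0 n n n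
  have hb := Z_nonneg w h0 m n n
  have hc := Z_nonneg w h0 m n m
  have hd := Z_nonneg w h0 m m m
  set a := Z w n n n
  set b := Z w m n n
  set c := Z w m n m
  set d := Z w m m m
  calc a^(m^3) = (a^m)^(m^2) := by rw [← pow_mul]; congr 1; ring
    _ ≤ (b^n)^(m^2) := pow_le_pow_left₀ (by positivity) z1 _
    _ = (b^m)^(n*m) := by rw [← pow_mul, ← pow_mul]; congr 1; ring
    _ ≤ (c^n)^(n*m) := pow_le_pow_left₀ (by positivity) z2 _
    _ = (c^m)^(n^2) := by rw [← pow_mul, ← pow_mul]; congr 1; ring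
    _ ≤ (d^n)^(n^2) := pow_le_pow_left₀ (by positivity) z3 _
    _ = d^(n^3) := by rw [← pow_mul]; congr 1; ring

end model

theorem euler_mono (m n : ℕ) (hm0 : 2 ≤ m) (hm : Even m) (hmn : m ≤ n) :
    (eulerCount n : ℝ)^(m^3) ≤ (eulerCount m : ℝ)^(n^3) := by
  obtain ⟨k, rfl⟩ : ∃ k, m = k + 1 := ⟨m - 1, by omega⟩
  obtain ⟨l, rfl⟩ : ∃ l, n = l + 1 := ⟨n - 1, by omega⟩
  rw [eulerCount_eq, eulerCount_eq]
  refine Z_cmp wER Equiv.boolNot ?_ ?_ ?_ (k+1) (l+1) hm hmn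
  · intro o1 o2 o3 i1 i2 i3; unfold wER; congr 1; revert o1 o2 o3 i1 i2 i3; decide
  · intro o1 o2 o3 i1 i2 i3; unfold wER; congr 1; revert o1 o2 o3 i1 i2 i3; decide
  · intro o1 o2 o3 i1 i2 i3; unfold wER; positivity

theorem ice_mono (m n : ℕ) (hm0 : 2 ≤ m) (hm : Even m) (hmn : m ≤ n) :
    (iceCount n : ℝ)^(m^3) ≤ (iceCount m : ℝ)^(n^3) := by
  obtain ⟨k, rfl⟩ : ∃ k, m = k + 1 := ⟨m - 1, by omega⟩
  obtain ⟨l, rfl⟩ : ∃ l, n = l + 1 := ⟨n - 1, by omega⟩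
  rw [iceCount_eq, iceCount_eq]
  refine Z_cmp wIR (Equiv.optionCongr Equiv.boolNot) ?_ ?_ ?_ (k+1) (l+1) hm hmn
  · intro o1 o2 o3 i1 i2 i3; unfold wIR; congr 1; revert o1 o2 o3 i1 i2 i3; decide +kernel
  · intro o1 o2 o3 i1 i2 i3; unfold wIR; congr 1; revert o1 o2 o3 i1 i2 i3; decide +kernel
  · intro o1 o2 o3 i1 i2 i3; unfold wIR; positivity

lemma root_cmp (a b : ℝ) (ha : 0 ≤ a) (hb : 0 ≤ b) (m n : ℕ) (hm : 0 < m) (hn : 0 < n)
    (h : a^(m^3) ≤ b^(n^3)) : a^(1/((n:ℝ)^3)) ≤ b^(1/((m:ℝ)^3)) := by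
  have hm' : (0:ℝ) < m := by exact_mod_cast hm
  have hn' : (0:ℝ) < n := by exact_mod_cast hn
  have e1 : a^(1/((n:ℝ)^3)) = (a^(m^3))^(1/((m:ℝ)^3*(n:ℝ)^3)) := by
    rw [← Real.rpow_natCast a, ← Real.rpow_mul ha]
    congr 1; push_cast; field_simp
  have e2 : b^(1/((m:ℝ)^3)) = (b^(n^3))^(1/((m:ℝ)^3*(n:ℝ)^3)) := by
    rw [← Real.rpow_natCast b, ← Real.rpow_mul hb]
    congr 1; push_cast; field_simp
  rw [e1, e2]
  exact Real.rpow_le_rpow (by positivity) h (by positivity)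

/-- the limit along even `n` -/
lemma even_lim (N : ℕ → ℕ) (hmono : ∀ m n : ℕ, 2 ≤ m → Even m → m ≤ n →
      (N n : ℝ)^(m^3) ≤ (N m : ℝ)^(n^3)) (c : ℝ) (hc : 0 < c)
    (hlow : ∀ n : ℕ, 3 ≤ n → Even n → c^(n^3) ≤ (N n : ℝ)) (U : ℝ)
    (hup : ∀ ε : ℝ, 0 < ε → ∃ n0 : ℕ, ∀ n : ℕ, n0 ≤ n → (N n : ℝ)^(1/((n:ℝ)^3)) ≤ U + ε) :
    ∃ W : ℝ, c ≤ W ∧ W ≤ U ∧
      (∀ n : ℕ, 2 ≤ n → Even n → W ≤ (N n : ℝ)^(1/((n:ℝ)^3))) ∧
      Filter.Tendsto (fun k : ℕ => (N (2*k) : ℝ)^(1/(((2*k : ℕ):ℝ)^3))) Filter.atTop (nhds W) := by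
  set f : ℕ → ℝ := fun k => (N (2*(k+1)) : ℝ)^(1/(((2*(k+1) : ℕ):ℝ)^3)) with hf
  have hanti : Antitone f := by
    intro k l hkl
    exact root_cmp _ _ (by positivity) (by positivity) (2*(k+1)) (2*(l+1)) (by omega) (by omega)
      (hmono _ _ (by omega) (by simp) (by omega))
  have hbdd : BddBelow (Set.range f) := ⟨0, by rintro _ ⟨k, rfl⟩; simp only [hf]; positivity⟩
  have hlim := tendsto_atTop_ciInf hanti hbdd
  refine ⟨⨅ i, f i, ?_, ?_, ?_, ?_⟩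
  · refine ge_of_tendsto hlim ?_
    filter_upwards [Filter.eventually_ge_atTop 1] with k hk
    have h1 := hlow (2*(k+1)) (by omega) (by simp)
    have hn' : (0:ℝ) < ((2*(k+1) : ℕ) : ℝ) := by exact_mod_cast (by omega : 0 < 2*(k+1))
    have e : c = (c^((2*(k+1))^3))^(1/(((2*(k+1) : ℕ):ℝ)^3)) := by
      rw [← Real.rpow_natCast c, ← Real.rpow_mul hc.le]
      have : (((2*(k+1))^3 : ℕ) : ℝ) * (1/(((2*(k+1) : ℕ):ℝ)^3)) = 1 := by
        rw [Nat.cast_pow]; field_simp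
      rw [this, Real.rpow_one]
    calc c = (c^((2*(k+1))^3))^(1/(((2*(k+1) : ℕ):ℝ)^3)) := e
      _ ≤ f k := Real.rpow_le_rpow (by positivity) h1 (by positivity)
  · refine le_of_forall_pos_le_add (fun ε hε => ?_)
    obtain ⟨n0, h0⟩ := hup ε hε
    refine le_of_tendsto hlim ?_
    filter_upwards [Filter.eventually_ge_atTop n0] with k hk
    exact h0 (2*(k+1)) (by omega)
  · intro n hn he
    obtain ⟨j, hj⟩ := he
    obtain ⟨k, rfl⟩ : ∃ k, n = 2*(k+1) := ⟨j - 1, by omega⟩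
    exact ciInf_le hbdd k
  · exact (Filter.tendsto_add_atTop_iff_nat (f := fun k : ℕ =>
      (N (2*k) : ℝ)^(1/(((2*k : ℕ):ℝ)^3))) 1).mp hlim

lemma euler_step (n : ℕ) (hn : 2 ≤ n) : eulerCount (2*(n/2)) ≤ eulerCount n := by
  rcases Nat.even_or_odd' n with ⟨m, hm | hm⟩
  · have e : 2*(n/2) = n := by omega
    rw [e]
  · obtain ⟨k, rfl⟩ : ∃ k, n = 2*k+1+1+1 := ⟨m - 1, by omega⟩
    have e : 2*((2*k+1+1+1)/2) = 2*k+1+1 := by omega
    rw [e]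
    have hr : ∀ o1 o2 o3 i1 i2 i3, wER o1 o2 o3 i1 i2 i3 = wER o2 o3 o1 i2 i3 i1 := by
      intro o1 o2 o3 i1 i2 i3; unfold wER; congr 1; revert o1 o2 o3 i1 i2 i3; decide
    have : (eulerCount (2*k+1+1) : ℝ) ≤ eulerCount (2*k+1+1+1) := by
      rw [eulerCount_eq (2*k+1), eulerCount_eq (2*k+1+1)]
      calc Z wER (2*k+1+1) (2*k+1+1) (2*k+1+1) ≤ Z wER (2*k+1+1+1) (2*k+1+1) (2*k+1+1) := Z_odd _ _ _
        _ = Z wER (2*k+1+1) (2*k+1+1) (2*k+1+1+1) := Z_rot _ hr _ _ _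
        _ ≤ Z wER (2*k+1+1+1) (2*k+1+1) (2*k+1+1+1) := Z_odd _ _ _
        _ = Z wER (2*k+1+1) (2*k+1+1+1) (2*k+1+1+1) := Z_rot _ hr _ _ _
        _ ≤ Z wER (2*k+1+1+1) (2*k+1+1+1) (2*k+1+1+1) := Z_odd _ _ _
    exact_mod_cast this

/-- from the even limit to the full limit -/
lemma full_lim (N : ℕ → ℕ) (hmono : ∀ m n : ℕ, 2 ≤ m → Even m → m ≤ n →
      (N n : ℝ)^(m^3) ≤ (N m : ℝ)^(n^3)) (W : ℝ) (hW1 : 1 ≤ W)
    (hW : ∀ n : ℕ, 2 ≤ n → Even n → W ≤ (N n : ℝ)^(1/((n:ℝ)^3)))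
    (hlim : Filter.Tendsto (fun k : ℕ => (N (2*k) : ℝ)^(1/(((2*k : ℕ):ℝ)^3))) Filter.atTop (nhds W))
    (hstep : ∀ n : ℕ, 2 ≤ n → N (2*(n/2)) ≤ N n) :
    Filter.Tendsto (fun n : ℕ => (N n : ℝ)^(1/((n:ℝ)^3))) Filter.atTop (nhds W) := by
  have hlow : Filter.Tendsto (fun n : ℕ => W^((1 - 1/(n:ℝ))^3)) Filter.atTop (nhds W) := by
    have h1 : Filter.Tendsto (fun n : ℕ => (1 - 1/(n:ℝ))^3) Filter.atTop (nhds ((1-0)^3)) :=
      (tendsto_const_nhds.sub tendsto_one_div_atTop_nhds_zero_nat).pow 3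
    have h2 := (Real.continuousAt_const_rpow (by linarith : W ≠ 0)).tendsto.comp h1
    have e : W = W^(((1:ℝ)-0)^3) := by norm_num
    rw [e]
    convert h2 using 1
    · funext n
      simp
  have hdiv : Filter.Tendsto (fun n : ℕ => n/2) Filter.atTop Filter.atTop :=
    Filter.tendsto_atTop_atTop.mpr (fun b => ⟨2*b, fun a ha => by omega⟩)
  have hup := hlim.comp hdiv
  refine tendsto_of_tendsto_of_tendsto_of_le_of_le' hlow hup ?_ ?_
  · filter_upwards [Filter.eventually_ge_atTop 2] with n hn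
    have hnpos : (0:ℝ) < n := by exact_mod_cast (by omega : 0 < n)
    have hm := hW (2*(n/2)) (by omega) (by simp)
    have hmpos : (0:ℝ) < ((2*(n/2) : ℕ) : ℝ) := by exact_mod_cast (by omega : 0 < 2*(n/2))
    have h3 : W^((2*(n/2))^3) ≤ (N (2*(n/2)) : ℝ) := by
      have h4 := pow_le_pow_left₀ (by linarith) hm ((2*(n/2))^3)
      refine h4.trans (le_of_eq ?_)
      rw [← Real.rpow_natCast, ← Real.rpow_mul (by positivity)]
      have : (1/(((2*(n/2) : ℕ):ℝ)^3)) * (((2*(n/2))^3 : ℕ) : ℝ) = 1 := by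
        rw [Nat.cast_pow]; field_simp
      rw [this, Real.rpow_one]
    have h5 : W^((n-1)^3) ≤ (N n : ℝ) := by
      calc W^((n-1)^3) ≤ W^((2*(n/2))^3) :=
            pow_le_pow_right₀ hW1 (Nat.pow_le_pow_left (by omega) 3)
        _ ≤ (N (2*(n/2)) : ℝ) := h3
        _ ≤ N n := by exact_mod_cast hstep n hn
    have e6 : W^((1 - 1/(n:ℝ))^3) = (W^((n-1)^3))^(1/((n:ℝ)^3)) := by
      rw [← Real.rpow_natCast W, ← Real.rpow_mul (by linarith)]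
      congr 1
      rw [Nat.cast_pow, Nat.cast_sub (by omega)]
      push_cast
      field_simp
    rw [e6]
    exact Real.rpow_le_rpow (by positivity) h5 (by positivity)
  · filter_upwards [Filter.eventually_ge_atTop 2] with n hn
    exact root_cmp _ _ (by positivity) (by positivity) (2*(n/2)) n (by omega) (by omega)
      (hmono _ _ (by omega) (by simp) (by omega))

/-- Existence of the residual entropies (for the ice model, along even `n`), with bounds. Each value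
`a_n^(1/n^3)`, `b_n^(1/n^3)` with `n` even is an upper bound for the limit. -/
theorem result :
    (∃ W : ℝ, 10/3 ≤ W ∧ W ≤ 318^((1:ℝ)/4) ∧
      Filter.Tendsto (fun k : ℕ => (iceCount (2*k) : ℝ)^(1/(((2*k : ℕ):ℝ)^3)))
        Filter.atTop (nhds W) ∧
      ∀ n : ℕ, 3 ≤ n → Even n → W ≤ (iceCount n : ℝ)^(1/((n:ℝ)^3))) ∧
    (∃ W : ℝ, 5/2 ≤ W ∧ W ≤ 61^((1:ℝ)/4) ∧
      Filter.Tendsto (fun n : ℕ => (eulerCount n : ℝ)^(1/((n:ℝ)^3))) Filter.atTop (nhds W) ∧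
      ∀ n : ℕ, 3 ≤ n → Even n → W ≤ (eulerCount n : ℝ)^(1/((n:ℝ)^3))) := by
  refine ⟨?_, ?_⟩
  · obtain ⟨W, h1, h2, h3, h4⟩ := even_lim iceCount ice_mono (10/3) (by norm_num)
      Pool.Agent.Helper653.IceTwo.result.1 (318^((1:ℝ)/4)) (fun ε hε => by
        obtain ⟨n0, h0⟩ := Pool.Agent.Helper653.IceUp.result.2.2 ε hε
        exact ⟨n0, fun n hn => (h0 n hn).1⟩)
    exact ⟨W, h1, h2, h4, fun n hn he => h3 n (by omega) he⟩
  · obtain ⟨W, h1, h2, h3, h4⟩ := even_lim eulerCount euler_mono (5/2) (by norm_num)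
      (fun n hn he => by
        have h := Pool.Agent.Helper653.IceTwo.result.2.2.1 n hn
        have e : 2*(n/2) = n := by obtain ⟨j, hj⟩ := he; omega
        rwa [e] at h) (61^((1:ℝ)/4)) (fun ε hε => by
        obtain ⟨n0, h0⟩ := Pool.Agent.Helper653.IceUp.result.2.2 ε hε
        exact ⟨n0, fun n hn => (h0 n hn).2⟩)
    exact ⟨W, h1, h2, full_lim eulerCount euler_mono W (by linarith) h3 h4 euler_step,
      fun n hn he => h3 n (by omega) he⟩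

end Pool.Agent.Results.MP_7c8df0_mp.Limit
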